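import Pool.Agent.W_bda8s_h78.Cluster

/-!
The combinatorics of gaps and scales of degrees.
-/

set_option autoImplicit false

namespace Pool.Agent.W_bda8t_h78

open Pool.Agent.W_bda8s_h78

theorem Clus_sq {x y : ℕ} (hy : 2 ≤ y) (h : y ≤ x * x) : scale y ≤ scale x + 1 := by
  have h1 : x * x < 2 ^ (2 ^ (scale x + 2)) := by
    have e : 2 ^ (2 ^ (scale x + 2)) = 2 ^ (2 ^ (scale x + 1)) * 2 ^ (2 ^ (scale x + 1)) := by
      rw [← pow_add]
      congr 1
      ring
    rw [e]
    exact Nat.mul_lt_mul'' (lt_scale x) (lt_scale x)
  have h2 := Cluster_lt hy (h.trans_lt h1)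
  omega

theorem Clus_gap {a f : ℕ} (ha : 2 ≤ a) (h : a * a < f) : scale a < scale f := by
  have h1 : (2 ^ (2 ^ scale a)) * (2 ^ (2 ^ scale a)) ≤ a * a :=
    Nat.mul_le_mul (scale_le a ha) (scale_le a ha)
  have h2 : (2 ^ (2 ^ scale a)) * (2 ^ (2 ^ scale a)) = 2 ^ (2 ^ (scale a + 1)) := by
    rw [← pow_add]
    congr 1
    ring
  rw [h2] at h1
  have h3 := (h1.trans_lt h).trans (lt_scale f)
  have h4 := (Nat.pow_lt_pow_iff_right (a := 2) (by norm_num)).1 h3
  have h5 := (Nat.pow_lt_pow_iff_right (a := 2) (by norm_num)).1 h4
  omega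

/-- the number of scales between two degrees without gaps in between -/
theorem Clus_count (S : Finset ℕ) (f l : ℕ) (hf2 : 2 ≤ f) (hl : l ∈ S)
    (hnext : ∀ x ∈ S, f ≤ x → x < l → ∃ y ∈ S, x < y ∧ y ≤ l ∧ y ≤ x * x) (n : ℕ) :
    ∀ x ∈ S, f ≤ x → x ≤ l → l - x ≤ n →
      scale l + 1 ≤ scale x + ((S.filter fun d => x ≤ d ∧ d ≤ l).image scale).card := by
  induction n with
  | zero =>
    intro x hx hfx hxl hn
    have hxl' : x = l := by omega
    subst hxl'
    have h1 : 0 < ((S.filter fun d => x ≤ d ∧ d ≤ x).image scale).card :=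
      Finset.card_pos.2 ⟨scale x, Finset.mem_image_of_mem _ (by simp [hx])⟩
    omega
  | succ n ih =>
    intro x hx hfx hxl hn
    rcases eq_or_lt_of_le hxl with hxl' | hxl'
    · subst hxl'
      have h1 : 0 < ((S.filter fun d => x ≤ d ∧ d ≤ x).image scale).card :=
        Finset.card_pos.2 ⟨scale x, Finset.mem_image_of_mem _ (by simp [hx])⟩
      omega
    · obtain ⟨y, hy, hxy, hyl, hyx⟩ := hnext x hx hfx hxl'
      have h1 := ih y hy (by omega) hyl (by omega)
      have h2 := Clus_sq (by omega) hyx
      have h3 : scale x ≤ scale y := Cluster_mono hxy.le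
      rcases eq_or_lt_of_le h3 with h4 | h4
      · have h5 : ((S.filter fun d => y ≤ d ∧ d ≤ l).image scale).card ≤
            ((S.filter fun d => x ≤ d ∧ d ≤ l).image scale).card := by
          apply Finset.card_le_card
          apply Finset.image_subset_image
          intro d hd
          rw [Finset.mem_filter] at hd ⊢
          exact ⟨hd.1, by omega, hd.2.2⟩
        omega
      · have h5 : insert (scale x) ((S.filter fun d => y ≤ d ∧ d ≤ l).image scale) ⊆
            (S.filter fun d => x ≤ d ∧ d ≤ l).image scale := by
          intro z hz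
          rw [Finset.mem_insert] at hz
          rcases hz with rfl | hz
          · exact Finset.mem_image_of_mem _ (by simp [hx, hxl])
          · obtain ⟨d, hd, rfl⟩ := Finset.mem_image.1 hz
            rw [Finset.mem_filter] at hd
            exact Finset.mem_image_of_mem _ (by
              rw [Finset.mem_filter]
              exact ⟨hd.1, by omega, hd.2.2⟩)
        have h6 : scale x ∉ (S.filter fun d => y ≤ d ∧ d ≤ l).image scale := by
          intro hz
          obtain ⟨d, hd, hdz⟩ := Finset.mem_image.1 hz
          rw [Finset.mem_filter] at hd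
          have : scale y ≤ scale d := Cluster_mono hd.2.1
          omega
        have h7 := Finset.card_le_card h5
        rw [Finset.card_insert_of_notMem h6] at h7
        omega

/-- The breaks of a finite set of degrees: the elements `d ≥ 2` such that no element lies in
`(d, d ^ 2]`. -/
def breaks (S : Finset ℕ) : Finset ℕ := S.filter fun d => 2 ≤ d ∧ ∀ x ∈ S, d < x → d * d < x

theorem Clus_main (S : Finset ℕ) (h1 : 1 ∈ S) (h0 : 0 ∉ S) (Φ : ℕ → ℕ → Prop)
    (hstart : Φ 1 1) (hmono : ∀ a d d', Φ a d → d ≤ d' → Φ a d')
    (hstep : ∀ a f l s r d, a ∈ S → f ∈ S → l ∈ S → a < f → f ≤ l →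
      (∀ x ∈ S, x ≤ a ∨ f ≤ x) → (∀ x ∈ S, l < x → l * l < x) →
      2 ^ (2 ^ s) ≤ f → l < 2 ^ (2 ^ (s + r + 1)) → Φ a d → Φ l (d + r + 6))
    (l : ℕ) (hl : l ∈ S) (hmax : ∀ x ∈ S, x ≤ l) :
    Φ l (((S.filter fun d => 2 ≤ d).image scale).card + 5 * (breaks S).card + 1) := by
  have key : ∀ n, ∀ l ∈ S, l ≤ n → (∀ x ∈ S, l < x → l * l < x) →
      Φ l (((S.filter fun d => 2 ≤ d ∧ d ≤ l).image scale).card +
        5 * ((breaks S).filter fun d => d ≤ l).card + 1) := by
    intro n
    induction n with
    | zero =>
      intro l hl hln _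
      exact absurd (by omega : l = 0) (fun h => h0 (h ▸ hl))
    | succ n ih =>
      intro l hl hln hbr
      have hl0 : l ≠ 0 := fun h => h0 (h ▸ hl)
      by_cases hl1 : l = 1
      · subst hl1
        exact hmono 1 1 _ hstart (by omega)
      · set B : Finset ℕ := S.filter (fun a => a < l ∧ ∀ x ∈ S, a < x → a * a < x) with hB
        have hBne : B.Nonempty := ⟨1, by
          rw [hB, Finset.mem_filter]
          exact ⟨h1, by omega, fun x _ hx => by omega⟩⟩
        have ha := B.max'_mem hBne
        set a : ℕ := B.max' hBne with hadef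
        rw [hB, Finset.mem_filter] at ha
        obtain ⟨haS, hal, habr⟩ := ha
        have ha0 : a ≠ 0 := fun h => h0 (h ▸ haS)
        set F : Finset ℕ := S.filter (fun x => a < x) with hF
        have hFne : F.Nonempty := ⟨l, by rw [hF, Finset.mem_filter]; exact ⟨hl, hal⟩⟩
        have hf := F.min'_mem hFne
        set f : ℕ := F.min' hFne with hfdef
        rw [hF, Finset.mem_filter] at hf
        obtain ⟨hfS, haf⟩ := hf
        have hfmin : ∀ x ∈ S, a < x → f ≤ x := fun x hx hax =>
          Finset.min'_le F x (by rw [hF, Finset.mem_filter]; exact ⟨hx, hax⟩)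
        have hfl : f ≤ l := hfmin l hl hal
        have ha2 : a * a < f := habr f hfS haf
        have hnext : ∀ x ∈ S, f ≤ x → x < l → ∃ y ∈ S, x < y ∧ y ≤ l ∧ y ≤ x * x := by
          intro x hx hfx hxl
          have hnb : ¬ ∀ y ∈ S, x < y → x * x < y := by
            intro hbx
            have : x ≤ a := Finset.le_max' B x (by
              rw [hB, Finset.mem_filter]
              exact ⟨hx, hxl, hbx⟩)
            omega
          push Not at hnb
          obtain ⟨y, hy, hxy, hy16⟩ := hnb
          by_cases hyl : y ≤ l
          · exact ⟨y, hy, hxy, hyl, hy16⟩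
          · exact ⟨l, hl, hxl, le_rfl, by omega⟩
        have hcount := Clus_count S f l (by omega) hl hnext (l - f) f hfS le_rfl hfl le_rfl
        have hsc : scale f ≤ scale l := Cluster_mono hfl
        have hst := hstep a f l (scale f) (scale l - scale f)
          (((S.filter fun d => 2 ≤ d ∧ d ≤ a).image scale).card +
            5 * ((breaks S).filter fun d => d ≤ a).card + 1) haS hfS hl haf hfl
          (fun x hx => by
            by_cases hxa : x ≤ a
            · exact Or.inl hxa
            · exact Or.inr (hfmin x hx (by omega))) hbr (scale_le f (by omega)) (by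
            rw [Nat.add_sub_cancel' hsc]
            exact lt_scale l) (ih a haS (by omega) habr)
        refine hmono l _ _ hst ?_
        have hdisj : Disjoint ((S.filter fun d => 2 ≤ d ∧ d ≤ a).image scale)
            ((S.filter fun d => f ≤ d ∧ d ≤ l).image scale) := by
          rw [Finset.disjoint_left]
          intro z hz hz'
          obtain ⟨d, hd, hdz⟩ := Finset.mem_image.1 hz
          obtain ⟨e, he, hez⟩ := Finset.mem_image.1 hz'
          rw [Finset.mem_filter] at hd he
          have h3 : scale d ≤ scale a := Cluster_mono hd.2.2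
          have h4 : scale f ≤ scale e := Cluster_mono he.2.1
          have h5 : scale a < scale f := Clus_gap (by omega) ha2
          omega
        have hsub : (S.filter fun d => 2 ≤ d ∧ d ≤ a).image scale ∪
            (S.filter fun d => f ≤ d ∧ d ≤ l).image scale ⊆
            (S.filter fun d => 2 ≤ d ∧ d ≤ l).image scale := by
          rw [← Finset.image_union]
          refine Finset.image_subset_image fun d hd => ?_
          rw [Finset.mem_union, Finset.mem_filter, Finset.mem_filter] at hd
          rw [Finset.mem_filter]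
          rcases hd with hd | hd
          · exact ⟨hd.1, hd.2.1, by omega⟩
          · exact ⟨hd.1, by omega, hd.2.2⟩
        have h6 := Finset.card_le_card hsub
        rw [Finset.card_union_of_disjoint hdisj] at h6
        have h7 : ((breaks S).filter fun d => d ≤ a).card <
            ((breaks S).filter fun d => d ≤ l).card := by
          apply Finset.card_lt_card
          rw [Finset.ssubset_iff_of_subset (by
            intro d hd
            rw [Finset.mem_filter] at hd ⊢
            exact ⟨hd.1, by omega⟩)]
          refine ⟨l, ?_, ?_⟩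
          · rw [Finset.mem_filter, breaks, Finset.mem_filter]
            exact ⟨⟨hl, by omega, hbr⟩, le_rfl⟩
          · rw [Finset.mem_filter]
            rintro ⟨-, h8⟩
            omega
        omega
  have hfin := key l l hl le_rfl (fun x hx hlx => absurd (hmax x hx) (by omega))
  refine hmono l _ _ hfin ?_
  have h2 : ((S.filter fun d => 2 ≤ d ∧ d ≤ l).image scale).card ≤
      ((S.filter fun d => 2 ≤ d).image scale).card := by
    apply Finset.card_le_card
    apply Finset.image_subset_image
    intro d hd
    rw [Finset.mem_filter] at hd ⊢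
    exact ⟨hd.1, hd.2.1⟩
  have h3 : ((breaks S).filter fun d => d ≤ l).card ≤ (breaks S).card :=
    Finset.card_filter_le _ _
  omega

/-- different breaks have different scales -/
theorem breaks_card_le (S : Finset ℕ) :
    (breaks S).card ≤ ((S.filter fun d => 2 ≤ d).image scale).card := by
  have hinj : Set.InjOn scale (breaks S : Set ℕ) := by
    intro x hx y hy hxy
    rw [Finset.mem_coe, breaks, Finset.mem_filter] at hx hy
    rcases lt_trichotomy x y with h | h | h
    · have := Clus_gap hx.2.1 (hx.2.2 y hy.1 h)
      omega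
    · exact h
    · have := Clus_gap hy.2.1 (hy.2.2 x hx.1 h)
      omega
  rw [← Finset.card_image_of_injOn hinj]
  apply Finset.card_le_card
  apply Finset.image_subset_image
  intro d hd
  rw [breaks, Finset.mem_filter] at hd
  rw [Finset.mem_filter]
  exact ⟨hd.1, hd.2.1⟩

end Pool.Agent.W_bda8t_h78
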