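import Pool.Agent.W_bda8t_h78.PTriv
import Pool.Agent.W_bda8t_h78.Clus
import Pool.Agent.W_bda8s_h78.Final

/-!
The bound for the derived length of a nilpotent normal subgroup by the number of scales of the
degrees and the number of gaps between them.
-/

set_option autoImplicit false

namespace Pool.Agent.W_bda8t_h78

open Pool.Agent.H58_bda8f3 Pool.Agent.W_bda8f3_h78 Pool.Agent.W_bda8s_h78 MonoidAlgebra

/-- The number of windows `2 ^ (2 ^ s) ≤ d < 2 ^ (2 ^ (s + 1))` that contain a degree `d ≥ 2`. -/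
noncomputable def windows (k G : Type) [Field k] [Group G] : ℕ :=
  {s : ℕ | ∃ d ∈ simpleDims k G, 2 ≤ d ∧ Nat.log 2 (Nat.log 2 d) = s}.ncard

/-- The number of degrees `d ≥ 2` such that no degree lies in `(d, d ^ 2]`. -/
noncomputable def gaps (k G : Type) [Field k] [Group G] : ℕ :=
  {d : ℕ | d ∈ simpleDims k G ∧ 2 ≤ d ∧ ∀ x ∈ simpleDims k G, d < x → d * d < x}.ncard

variable {k G : Type} [Field k] [Group G]

theorem windows_eq (S : Finset ℕ) (hmem : ∀ x, x ∈ S ↔ x ∈ simpleDims k G) :
    windows k G = ((S.filter fun d => 2 ≤ d).image scale).card := by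
  classical
  rw [windows, ← Set.ncard_coe_finset]
  congr 1
  ext s
  simp only [Set.mem_setOf_eq, Finset.coe_image, Finset.coe_filter, Set.mem_image, hmem]
  constructor
  · rintro ⟨d, h2, h3, h4⟩
    exact ⟨d, ⟨h2, h3⟩, h4⟩
  · rintro ⟨d, ⟨h2, h3⟩, h4⟩
    exact ⟨d, h2, h3, h4⟩

theorem gaps_eq (S : Finset ℕ) (hmem : ∀ x, x ∈ S ↔ x ∈ simpleDims k G) :
    gaps k G = (breaks S).card := by
  rw [gaps, ← Set.ncard_coe_finset]
  congr 1
  ext d
  simp only [Set.mem_setOf_eq, breaks, Finset.coe_filter, hmem]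

theorem gaps_le_windows [Finite G] : gaps k G ≤ windows k G := by
  have hfin : (simpleDims k G).Finite := simpleDims_finite
  have hmem : ∀ x, x ∈ hfin.toFinset ↔ x ∈ simpleDims k G := fun x => by
    rw [Set.Finite.mem_toFinset]
  rw [windows_eq _ hmem, gaps_eq _ hmem]
  exact breaks_card_le _

/-- **The main theorem.** -/
theorem scales_normal [IsAlgClosed k] [Finite G] (N : Subgroup G) [N.Normal]
    (hnil : Group.IsNilpotent N) (hN : (Nat.card N : k) ≠ 0) :
    derivedSeries N (windows k G + 5 * gaps k G + 1) = ⊥ := by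
  have hfin : (simpleDims k G).Finite := simpleDims_finite
  set S : Finset ℕ := hfin.toFinset with hS
  have hmem : ∀ x, x ∈ S ↔ x ∈ simpleDims k G := fun x => by
    rw [hS, Set.Finite.mem_toFinset]
  have h1 : 1 ∈ S := (hmem 1).2 one_mem_simpleDims
  have h0 : 0 ∉ S := fun h => by
    have := Final_pos ((hmem 0).1 h)
    omega
  have hl : S.max' ⟨1, h1⟩ ∈ S := Finset.max'_mem _ _
  have hmax : ∀ x ∈ S, x ≤ S.max' ⟨1, h1⟩ := fun x hx => Finset.le_max' _ _ hx
  have key := Clus_main S h1 h0 (fun a d => D N d ≤ kerDim k G a) (by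
      show ⁅N, N⁆ ≤ kerDim k G 1
      exact (Subgroup.commutator_mono le_top le_top).trans commutator_le_kerDim_one) (by
      intro a d d' h hdd
      exact (D_antitone N hdd).trans h) (by
      intro a f l s r d ha hf hlS haf hfl hx hl2 hfs hls hd
      refine stepN N hnil hN a f l s r d (Final_pos ((hmem l).1 hlS)) (fun e he hel => ?_)
        (fun e he => hx e ((hmem e).2 he)) hfs hls hd
      by_contra hcon
      have h2 := hl2 e ((hmem e).2 he) (by omega)
      omega) _ hl hmax
  rw [← windows_eq S hmem, ← gaps_eq S hmem] at key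
  set m := windows k G + 5 * gaps k G + 1 with hm
  have hlt : S.max' ⟨1, h1⟩ ≤ 2 ^ (S.max' ⟨1, h1⟩) := Nat.lt_two_pow_self.le
  have h2 : kerDim k G (S.max' ⟨1, h1⟩) ≤ kerDim k G (2 ^ (S.max' ⟨1, h1⟩)) := by
    intro g hg V _ _ _ _ hV _ v
    exact hg V hV (hmax _ ((hmem _).2
      ⟨V, inferInstance, inferInstance, inferInstance, inferInstance, hV, rfl⟩)) v
  have h3 := D_eq_bot_of_le_kerDim (k := k) N hnil hN (S.max' ⟨1, h1⟩) m (key.trans h2)
  have h4 : simpleDims k G ∩ Set.Ioi (2 ^ (S.max' ⟨1, h1⟩)) = ∅ := by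
    ext x
    simp only [Set.mem_inter_iff, Set.mem_Ioi, Set.mem_empty_iff_false, iff_false, not_and]
    intro hx hx2
    have := hmax x ((hmem x).2 hx)
    omega
  rw [h4, Set.ncard_empty, mul_zero, add_zero, ← D_map, Subgroup.map_eq_bot_iff,
    Subgroup.ker_subtype, le_bot_iff] at h3
  exact h3

/-- The version for the quotient by the largest normal `p`-subgroup. -/
theorem scales_fitting (p : ℕ) [Fact p.Prime] (G : Type) [Group G] [Finite G] (k : Type) [Field k]
    [IsAlgClosed k] [CharP k p] (O : Subgroup G) [O.Normal] (hO : IsPGroup p O)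
    (hOmax : ∀ Q : Subgroup G, Q.Normal → IsPGroup p Q → Q ≤ O) (N : Subgroup (G ⧸ O))
    [N.Normal] (hnil : Group.IsNilpotent N) :
    derivedSeries N (windows k G + 5 * gaps k G + 1) = ⊥ := by
  have hO' : ∀ Q : Subgroup (G ⧸ O), Q.Normal → IsPGroup p Q → Q = ⊥ := by
    intro Q hQ hQp
    have h1 := hOmax (Q.comap (QuotientGroup.mk' O)) inferInstance
      (hQp.comap_of_ker_isPGroup _ (by rw [QuotientGroup.ker_mk']; exact hO))
    rw [eq_bot_iff]
    intro q hq
    obtain ⟨g, rfl⟩ := QuotientGroup.mk'_surjective O q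
    have h2 : g ∈ O := h1 hq
    rw [Subgroup.mem_bot]
    exact (QuotientGroup.eq_one_iff g).mpr h2
  have hN : (Nat.card N : k) ≠ 0 := by
    rw [Ne, CharP.cast_eq_zero_iff k p]
    exact not_dvd_card (p := p) N hnil hO'
  have h1 := scales_normal (k := k) N hnil hN
  have h2 := simpleDims_pquot (k := k) p O hO
  have h3 : windows k (G ⧸ O) = windows k G := by rw [windows, windows, h2]
  have h4 : gaps k (G ⧸ O) = gaps k G := by rw [gaps, gaps, h2]
  rwa [h3, h4] at h1

end Pool.Agent.W_bda8t_h78
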