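import Pool.Agent.W_bda8t_h78.Step
import Mathlib.GroupTheory.PGroup
import Mathlib.Algebra.Module.ZMod

/-!
Normal `p`-subgroups act trivially on irreducible representations in characteristic `p`.
-/

set_option autoImplicit false

namespace Pool.Agent.W_bda8t_h78

open Pool.Agent.H58_bda8f3 Pool.Agent.W_bda8f3_h78 Pool.Agent.W_bda8s_h78 MonoidAlgebra

variable {k G : Type} [Field k] [Group G]

theorem PTriv_aux (p : ℕ) [Fact p.Prime] [Finite G] (O : Subgroup G)
    (hO : IsPGroup p O) {V : Type} [AddCommGroup V] [Module (ZMod p) V] (hp : ∀ v : V, p • v = 0)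
    (ρ : G → (V →+ V)) (h1ρ : ∀ v, ρ 1 v = v) (hmρ : ∀ a b v, ρ (a * b) v = ρ a (ρ b v))
    (x : V) (hx : x ≠ 0) : ∃ v : V, v ≠ 0 ∧ ∀ o ∈ O, ρ o v = v := by
  set W : Submodule (ZMod p) V := Submodule.span (ZMod p) (Set.range fun o : O => ρ o x) with hW
  have hfin : Finite W := by
    have h1 : Module.Finite (ZMod p) W :=
      Module.Finite.span_of_finite (ZMod p) (Set.finite_range _)
    exact Module.finite_of_finite (ZMod p)
  have hst : ∀ o : O, ∀ w ∈ W, ρ o w ∈ W := by
    intro o w hw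
    have h1 : W ≤ W.comap ((ρ o).toZModLinearMap p) := by
      rw [hW, Submodule.span_le]
      rintro _ ⟨o', rfl⟩
      refine Submodule.subset_span ⟨o * o', ?_⟩
      show ρ ((o * o' : O) : G) x = ρ o (ρ o' x)
      rw [Subgroup.coe_mul, hmρ]
    exact h1 hw
  letI act : MulAction O W :=
    { smul := fun o w => ⟨ρ o w, hst o w w.2⟩
      one_smul := fun w => Subtype.ext (by
        show ρ ((1 : O) : G) (w : V) = w
        rw [Subgroup.coe_one, h1ρ])
      mul_smul := fun a b w => Subtype.ext (by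
        show ρ ((a * b : O) : G) (w : V) = ρ a (ρ b w)
        rw [Subgroup.coe_mul, hmρ]) }
  have hxW : x ∈ W := Submodule.subset_span ⟨1, by
    show ρ ((1 : O) : G) x = x
    rw [Subgroup.coe_one, h1ρ]⟩
  have hdvd : p ∣ Nat.card W := by
    have h1 : addOrderOf (⟨x, hxW⟩ : W) = p := addOrderOf_eq_prime (Subtype.ext (hp x))
      (fun h => hx (congrArg Subtype.val h))
    have h2 : addOrderOf (⟨x, hxW⟩ : W) ∣ Nat.card W := addOrderOf_dvd_natCard _
    exact (dvd_of_eq h1.symm).trans h2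
  obtain ⟨b, hb, hne⟩ := hO.exists_fixed_point_of_prime_dvd_card_of_fixed_point W hdvd
    (a := (0 : W)) (by
      intro o
      refine Subtype.ext ?_
      show ρ o (0 : V) = 0
      rw [map_zero])
  refine ⟨b, fun h => hne (Subtype.ext h.symm), ?_⟩
  intro o ho
  exact congrArg Subtype.val (hb ⟨o, ho⟩)

/-- A finite `p`-group has a nonzero fixed vector in every nonzero representation in
characteristic `p`. -/
theorem PTriv_fixed (p : ℕ) [Fact p.Prime] [CharP k p] [Finite G] (O : Subgroup G)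
    (hO : IsPGroup p O) {V : Type} [AddCommGroup V] [Module k V] (ρ : Representation k G V)
    (x : V) (hx : x ≠ 0) : ∃ v : V, v ≠ 0 ∧ ∀ o ∈ O, ρ o v = v := by
  have hp : ∀ v : V, p • v = 0 := by
    intro v
    rw [← Nat.cast_smul_eq_nsmul k, CharP.cast_eq_zero, zero_smul]
  exact @PTriv_aux G _ p _ _ O hO V _ (AddCommGroup.zmodModule hp) hp
    (fun g => (ρ g).toAddMonoidHom)
    (fun v => by
      show ρ 1 v = v
      rw [map_one]; rfl)
    (fun a b v => by
      show ρ (a * b) v = ρ a (ρ b v)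
      rw [map_mul]; rfl) x hx

theorem PTriv_act (p : ℕ) [Fact p.Prime] [CharP k p] [Finite G] (O : Subgroup G) [O.Normal]
    (hO : IsPGroup p O) {V : Type} [AddCommGroup V] [Module k V] (ρ : Representation k G V)
    (hρ : Irr ρ) : ∀ o ∈ O, ρ o = 1 := by
  let U : Submodule k V :=
    { carrier := {v | ∀ o ∈ O, ρ o v = v}
      add_mem' := fun {a b} ha hb o ho => by rw [map_add, ha o ho, hb o ho]
      zero_mem' := fun o _ => map_zero _
      smul_mem' := fun c v hv o ho => by rw [map_smul, hv o ho] }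
  have hU : Stable ρ U := by
    intro g u hu o ho
    have h1 : g⁻¹ * o * g ∈ O := by
      have := (inferInstance : O.Normal).conj_mem o ho g⁻¹
      rwa [inv_inv] at this
    have h2 := hu _ h1
    calc ρ o (ρ g u) = ρ (g * (g⁻¹ * o * g)) u := by
          rw [show g * (g⁻¹ * o * g) = o * g by group, map_mul]; rfl
      _ = ρ g (ρ (g⁻¹ * o * g) u) := by rw [map_mul]; rfl
      _ = ρ g u := by rw [h2]
  obtain ⟨x, hx⟩ := @exists_ne V hρ.1 0
  obtain ⟨v, hv, hvO⟩ := PTriv_fixed p O hO ρ x hx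
  rcases hρ.2 U hU with h | h
  · exfalso
    have h3 : v ∈ U := hvO
    rw [h] at h3
    exact hv h3
  · intro o ho
    apply LinearMap.ext
    intro w
    have h3 : w ∈ U := by rw [h]; exact Submodule.mem_top
    exact h3 o ho

/-- The degrees of `G` and of its quotient by a normal `p`-subgroup agree. -/
theorem simpleDims_pquot (p : ℕ) [Fact p.Prime] [CharP k p] [Finite G] (O : Subgroup G)
    [O.Normal] (hO : IsPGroup p O) : simpleDims k (G ⧸ O) = simpleDims k G := by
  apply Set.Subset.antisymm (simpleDims_quotient (k := k) O)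
  intro d hd
  obtain ⟨V, iV, mV, ρ, hρ, hdV⟩ := (mem_simpleDims_iff d).1 hd
  have htriv := PTriv_act p O hO ρ hρ
  refine (mem_simpleDims_iff d).2 ⟨V, iV, mV,
    (QuotientGroup.lift O ρ fun o ho => htriv o ho : (G ⧸ O) →* _), ⟨hρ.1, ?_⟩, hdV⟩
  intro U hU
  refine hρ.2 U ?_
  intro g u hu
  exact hU (g : G ⧸ O) u hu

end Pool.Agent.W_bda8t_h78
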