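import Pool.Agent.W_bda8s_h78.StepH
import Pool.Agent.W_bda8f3_h78.FinB
import Pool.Agent.W_bda8f3_h78.FinC

/-!
Small sections are centralized by the kernel of the small representations; long lower central
series.
-/

set_option autoImplicit false

namespace Pool.Agent.W_bda8t_h78

open Pool.Agent.H58_bda8f3 Pool.Agent.W_bda8f3_h78 Pool.Agent.W_bda8s_h78 MonoidAlgebra
open scoped commutatorElement

variable {k G : Type} [Field k] [Group G]

/-- If `H` acts trivially on all simple modules of dimension less than `f`, and the section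
`X Y / Y` has at most `f` elements, then `H` centralizes the section. -/
theorem comm_le_of_card [Finite G] (H : Subgroup G)
    (hH : ∀ h ∈ H, ∃ n : ℕ, (n : k) ≠ 0 ∧ h ^ n = 1) (f : ℕ) (hf : SimpleTriv k H f)
    (X Y : Subgroup G) [X.Normal] [Y.Normal]
    (hc : Nat.card (X.map (QuotientGroup.mk' Y)) ≤ f) : ⁅X, H⁆ ≤ Y := by
  have hn : (X.map (QuotientGroup.mk' Y)).Normal :=
    Subgroup.Normal.map inferInstance _ (QuotientGroup.mk'_surjective Y)
  let act : MulAction G (X.map (QuotientGroup.mk' Y)) :=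
    MulAction.compHom _ ((MulAut.conjNormal (H := X.map (QuotientGroup.mk' Y))).comp
      (QuotientGroup.mk' Y))
  have hsm : ∀ (g : G) (x : X.map (QuotientGroup.mk' Y)),
      ((g • x : X.map (QuotientGroup.mk' Y)) : G ⧸ Y) =
        (QuotientGroup.mk' Y g) * x * (QuotientGroup.mk' Y g)⁻¹ := by
    intro g x
    exact MulAut.conjNormal_apply _ _
  have key := triv_perm (k := k) H hH f hf (X.map (QuotientGroup.mk' Y)) hc
  rw [Subgroup.commutator_le]
  intro x hx h hh
  have h1 := key h hh ⟨QuotientGroup.mk' Y x, Subgroup.mem_map_of_mem _ hx⟩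
  have h2 := congrArg Subtype.val h1
  rw [hsm] at h2
  have h3 : QuotientGroup.mk' Y h * QuotientGroup.mk' Y x =
      QuotientGroup.mk' Y x * QuotientGroup.mk' Y h := by
    rw [mul_inv_eq_iff_eq_mul] at h2
    exact h2
  have h4 : QuotientGroup.mk' Y ⁅x, h⁆ = 1 := by
    rw [map_commutatorElement, commutatorElement_eq_one_iff_mul_comm]
    exact h3.symm
  have h5 : ⁅x, h⁆ ∈ (QuotientGroup.mk' Y).ker := h4
  rwa [QuotientGroup.ker_mk'] at h5

end Pool.Agent.W_bda8t_h78
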