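import Pool.Agent.W_bda8t_h78.SecA

/-!
A nilpotent normal subgroup with large non-central sections has small class.
-/

set_option autoImplicit false

namespace Pool.Agent.W_bda8t_h78

open Pool.Agent.H58_bda8f3 Pool.Agent.W_bda8f3_h78 Pool.Agent.W_bda8s_h78 MonoidAlgebra

variable {k G : Type} [Field k] [Group G]

instance SecB_normal (P : Subgroup G) [P.Normal] (n : ℕ) : (P.lowerCentralSeries n).Normal := by
  induction n with
  | zero => exact ‹P.Normal›
  | succ n ih => exact Subgroup.commutator_normal _ _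

/-- the order of a subgroup is the order of a section times the order of the smaller subgroup -/
theorem SecB_card [Finite G] (X Y : Subgroup G) [Y.Normal] (h : Y ≤ X) :
    Nat.card (X.map (QuotientGroup.mk' Y)) * Nat.card Y = Nat.card X := by
  rw [← Subgroup.relIndex_ker, QuotientGroup.ker_mk', mul_comm, ← Subgroup.relIndex_bot_left Y,
    ← Subgroup.relIndex_bot_left X]
  exact Subgroup.relIndex_mul_relIndex ⊥ Y X bot_le h

/-- a nilpotent subgroup whose lower central series stops has reached the trivial group -/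
theorem SecB_stop (P : Subgroup G) [P.Normal] (hnil : ∃ c, P.lowerCentralSeries c = ⊥) (n : ℕ)
    (h : P.lowerCentralSeries (n + 1) ≤ P.lowerCentralSeries (n + 2)) :
    P.lowerCentralSeries (n + 1) = ⊥ := by
  obtain ⟨c, hc⟩ := hnil
  have h1 : ∀ m, P.lowerCentralSeries (n + 1) ≤ P.lowerCentralSeries (n + 1 + m) := by
    intro m
    induction m with
    | zero => exact le_rfl
    | succ m ih =>
      refine h.trans ?_
      show ⁅P.lowerCentralSeries (n + 1), P⁆ ≤ ⁅P.lowerCentralSeries (n + 1 + m), P⁆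
      exact Subgroup.commutator_mono ih le_rfl
  rw [eq_bot_iff, ← hc]
  refine (h1 c).trans (Subgroup.lowerCentralSeries_antitone _ (by omega))

theorem SecB_gap [Finite G] (P : Subgroup G) [P.Normal] (hnil : ∃ c, P.lowerCentralSeries c = ⊥)
    (hP : ∀ h ∈ P, ∃ n : ℕ, (n : k) ≠ 0 ∧ h ^ n = 1) (f : ℕ) (hf : SimpleTriv k P f) (n : ℕ)
    (hn : P.lowerCentralSeries (n + 1) ≠ ⊥) :
    f * Nat.card (P.lowerCentralSeries (n + 2)) ≤ Nat.card (P.lowerCentralSeries n) := by
  by_contra hlt
  push Not at hlt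
  have hle : P.lowerCentralSeries (n + 2) ≤ P.lowerCentralSeries n :=
    Subgroup.lowerCentralSeries_antitone _ (by omega)
  have hc := SecB_card (P.lowerCentralSeries n) (P.lowerCentralSeries (n + 2)) hle
  rw [← hc] at hlt
  have hc2 := Nat.lt_of_mul_lt_mul_right hlt
  exact hn (SecB_stop P hnil n (comm_le_of_card P hP f hf _ _ hc2.le))

theorem SecB_pow [Finite G] (P : Subgroup G) [P.Normal] (hnil : ∃ c, P.lowerCentralSeries c = ⊥)
    (hP : ∀ h ∈ P, ∃ n : ℕ, (n : k) ≠ 0 ∧ h ^ n = 1) (f : ℕ) (hf : SimpleTriv k P f) (j : ℕ) :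
    P.lowerCentralSeries (2 * j + 1) ≠ ⊥ →
      f ^ (j + 1) * Nat.card (P.lowerCentralSeries (2 * j + 2)) ≤ Nat.card P := by
  induction j with
  | zero =>
    intro h
    simpa using SecB_gap P hnil hP f hf 0 h
  | succ j ih =>
    intro h
    have h1 : P.lowerCentralSeries (2 * j + 1) ≠ ⊥ := by
      intro h0
      apply h
      rw [eq_bot_iff, ← h0]
      exact Subgroup.lowerCentralSeries_antitone _ (by omega)
    have h2 := SecB_gap P hnil hP f hf (2 * j + 2) h
    calc f ^ (j + 1 + 1) * Nat.card (P.lowerCentralSeries (2 * (j + 1) + 2))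
        = f ^ (j + 1) * (f * Nat.card (P.lowerCentralSeries (2 * j + 2 + 2))) := by
          rw [pow_succ, mul_assoc]; rfl
      _ ≤ f ^ (j + 1) * Nat.card (P.lowerCentralSeries (2 * j + 2)) :=
          Nat.mul_le_mul_left _ h2
      _ ≤ Nat.card P := ih h1

/-- derived series and lower central series of a subgroup -/
theorem SecB_D_le (P : Subgroup G) (i : ℕ) : D P i ≤ P.lowerCentralSeries (2 ^ i - 1) := by
  rw [← D_map]
  refine (Subgroup.map_mono (derivedSeries_le_lcs i)).trans (le_of_eq ?_)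
  have h1 : ∀ n, ((⊤ : Subgroup P).lowerCentralSeries n).map P.subtype =
      P.lowerCentralSeries n := by
    intro n
    induction n with
    | zero =>
      show (⊤ : Subgroup P).map P.subtype = P
      rw [← MonoidHom.range_eq_map, Subgroup.range_subtype]
    | succ n ih =>
      show (⁅(⊤ : Subgroup P).lowerCentralSeries n, (⊤ : Subgroup P)⁆ : Subgroup P).map P.subtype =
        ⁅P.lowerCentralSeries n, P⁆
      rw [Subgroup.map_commutator, ih, ← MonoidHom.range_eq_map, Subgroup.range_subtype]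
  exact h1 _

/-- **The class bound.** `P` nilpotent and normal, trivial on all simple modules of dimension less
than `f`, `f ≥ 2 ^ (2 ^ s)` and of order less than `2 ^ (2 ^ (s + r + 4))`: then the derived
length is at most `r + 5`. -/
theorem derived_of_card [Finite G] (P : Subgroup G) [P.Normal]
    (hnil : ∃ c, P.lowerCentralSeries c = ⊥)
    (hP : ∀ h ∈ P, ∃ n : ℕ, (n : k) ≠ 0 ∧ h ^ n = 1) (f s r : ℕ) (hf : SimpleTriv k P f)
    (hfs : 2 ^ (2 ^ s) ≤ f) (hc : Nat.card P < 2 ^ (2 ^ (s + r + 4))) :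
    D P (r + 5) = ⊥ := by
  rw [eq_bot_iff]
  refine (SecB_D_le P (r + 5)).trans (le_of_eq ?_)
  by_contra hne
  have e1 : 2 ^ (r + 5) - 1 = 2 * (2 ^ (r + 4) - 1) + 1 := by
    have h1 : 2 ^ (r + 5) = 2 * 2 ^ (r + 4) := by ring
    have h2 := Nat.one_le_two_pow (n := r + 4)
    omega
  rw [e1] at hne
  have h3 := SecB_pow P hnil hP f hf (2 ^ (r + 4) - 1) hne
  have e2 : 2 ^ (r + 4) - 1 + 1 = 2 ^ (r + 4) := Nat.sub_add_cancel Nat.one_le_two_pow
  rw [e2] at h3
  have h4 : f ^ (2 ^ (r + 4)) ≤ Nat.card P := by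
    refine le_trans ?_ h3
    exact Nat.le_mul_of_pos_right _ Nat.card_pos
  have h5 : 2 ^ (2 ^ (s + r + 4)) ≤ f ^ (2 ^ (r + 4)) := by
    have e3 : 2 ^ (2 ^ (s + r + 4)) = (2 ^ (2 ^ s)) ^ (2 ^ (r + 4)) := by
      rw [← pow_mul, ← pow_add, add_assoc]
    rw [e3]
    exact Nat.pow_le_pow_left hfs _
  omega

end Pool.Agent.W_bda8t_h78
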