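import Pool.Agent.W_bda8t_h78.SecB

/-!
The step for a nilpotent normal subgroup.
-/

set_option autoImplicit false

namespace Pool.Agent.W_bda8t_h78

open Pool.Agent.H58_bda8f3 Pool.Agent.W_bda8f3_h78 Pool.Agent.W_bda8s_h78 MonoidAlgebra

variable {k G : Type} [Field k] [Group G]

theorem Step_DD (N : Subgroup G) (d m : ℕ) : D (D N d) m = D N (d + m) := by
  induction m with
  | zero => rfl
  | succ m ih =>
    show ⁅D (D N d) m, D (D N d) m⁆ = ⁅D N (d + m), D N (d + m)⁆
    rw [ih]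

theorem Step_map_nil {Q : Type} [Group Q] (φ : G →* Q) (N : Subgroup G)
    (hnil : ∃ c, N.lowerCentralSeries c = ⊥) : ∃ c, (N.map φ).lowerCentralSeries c = ⊥ := by
  obtain ⟨c, hc⟩ := hnil
  refine ⟨c, ?_⟩
  have h1 : ∀ n, (N.map φ).lowerCentralSeries n = (N.lowerCentralSeries n).map φ := by
    intro n
    induction n with
    | zero => rfl
    | succ n ih =>
      show ⁅(N.map φ).lowerCentralSeries n, N.map φ⁆ =
        (⁅N.lowerCentralSeries n, N⁆ : Subgroup G).map φ
      rw [ih, Subgroup.map_commutator]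
  rw [h1, hc, Subgroup.map_bot]

theorem Step_map_ord {Q : Type} [Group Q] (φ : G →* Q) (N : Subgroup G)
    (hN : ∀ h ∈ N, ∃ n : ℕ, (n : k) ≠ 0 ∧ h ^ n = 1) :
    ∀ h ∈ N.map φ, ∃ n : ℕ, (n : k) ≠ 0 ∧ h ^ n = 1 := by
  rintro _ ⟨h, hh, rfl⟩
  obtain ⟨n, hn, hn2⟩ := hN h hh
  exact ⟨n, hn, by rw [← map_pow, hn2, map_one]⟩

theorem Step_triv [Finite G] (P : Subgroup G) (a f : ℕ) (hP : P ≤ kerDim k G a)
    (hf : ∀ e ∈ simpleDims k G, e ≤ a ∨ f ≤ e) : SimpleTriv k P f := by
  intro X _ _ _ _ hX hlt h hh x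
  have hm : Module.finrank k X ∈ simpleDims k G :=
    ⟨X, inferInstance, inferInstance, inferInstance, inferInstance, hX, rfl⟩
  rcases hf _ hm with h1 | h1
  · exact hP hh X hX h1 x
  · omega

/-- the step in a group all whose degrees are at most `l` -/
theorem stepQ [IsAlgClosed k] [Finite G] (N : Subgroup G) [N.Normal]
    (hnil : Group.IsNilpotent N) (hN : (Nat.card N : k) ≠ 0) (a f l s r : ℕ)
    (hl : ∀ e ∈ simpleDims k G, e ≤ l) (hf : ∀ e ∈ simpleDims k G, e ≤ a ∨ f ≤ e)
    (hfs : 2 ^ (2 ^ s) ≤ f) (hls : l < 2 ^ (2 ^ (s + r + 1)))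
    (ha : N ≤ kerDim k G a) : D N (r + 6) = ⊥ := by
  obtain ⟨M, hM1, hM2, hM3⟩ := exists_char_abelian N hnil hN l (simpleDims_subgroup_le N l hl)
  have hMn : (M.map N.subtype).Normal := inferInstance
  have hN' : ∀ h ∈ N, ∃ n : ℕ, (n : k) ≠ 0 ∧ h ^ n = 1 := by
    intro h hh
    refine ⟨Nat.card N, hN, ?_⟩
    have := pow_card_eq_one' (x := (⟨h, hh⟩ : N))
    exact congrArg Subtype.val this
  set q := QuotientGroup.mk' (M.map N.subtype) with hq
  have hPn : (N.map q).Normal :=
    Subgroup.Normal.map inferInstance _ (QuotientGroup.mk'_surjective _)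
  have hcard : Nat.card (N.map q) ≤ l ^ 8 := by
    rw [← Subgroup.relIndex_ker, hq, QuotientGroup.ker_mk']
    have e1 : (M.map N.subtype).relIndex N = M.index := by
      show ((M.map N.subtype).subgroupOf N).index = M.index
      congr 1
      exact Subgroup.comap_map_eq_self_of_injective (Subgroup.subtype_injective N) M
    rw [e1]
    exact hM3
  have hc2 : Nat.card (N.map q) < 2 ^ (2 ^ (s + r + 4)) := by
    refine hcard.trans_lt ?_
    have e2 : 2 ^ (2 ^ (s + r + 4)) = (2 ^ (2 ^ (s + r + 1))) ^ 8 := by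
      rw [← pow_mul]
      congr 1
      rw [show s + r + 4 = s + r + 1 + 3 from rfl, pow_add 2 (s + r + 1) 3]
      norm_num
    rw [e2]
    exact Nat.pow_lt_pow_left hls (by norm_num)
  have hD := derived_of_card (k := k) (N.map q)
    (Step_map_nil q N ((Subgroup.isNilpotent_iff_lowerCentralSeries N).mp hnil))
    (Step_map_ord q N hN') f s r
    (Step_triv (N.map q) a f ((Subgroup.map_mono ha).trans
      (kerDim_map_le (k := k) (M.map N.subtype) a))
      (fun e he => hf e (simpleDims_quotient (k := k) (M.map N.subtype) he))) hfs hc2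
  rw [← FinB_map_D, Subgroup.map_eq_bot_iff, hq, QuotientGroup.ker_mk'] at hD
  rw [eq_bot_iff]
  show ⁅D N (r + 5), D N (r + 5)⁆ ≤ ⊥
  refine (Subgroup.commutator_mono hD hD).trans ?_
  rw [← Subgroup.map_commutator]
  have h5 : ⁅M, M⁆ = (⊥ : Subgroup N) := by
    rw [Subgroup.commutator_eq_bot_iff_le_centralizer]
    exact Subgroup.le_centralizer_iff_isMulCommutative.2 hM2
  rw [h5, Subgroup.map_bot]

/-- **The step.** -/
theorem stepN [IsAlgClosed k] [Finite G] (N : Subgroup G) [N.Normal]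
    (hnil : Group.IsNilpotent N) (hN : (Nat.card N : k) ≠ 0) (a f l s r d : ℕ)
    (hl1 : 1 ≤ l) (hl : ∀ e ∈ simpleDims k G, e ≤ l * l → e ≤ l)
    (hf : ∀ e ∈ simpleDims k G, e ≤ a ∨ f ≤ e)
    (hfs : 2 ^ (2 ^ s) ≤ f) (hls : l < 2 ^ (2 ^ (s + r + 1)))
    (hd : D N d ≤ kerDim k G a) : D N (d + r + 6) ≤ kerDim k G l := by
  set q := QuotientGroup.mk' (kerDim k G l) with hq
  have hn1 : ((D N d).map q).Normal :=
    Subgroup.Normal.map inferInstance _ (QuotientGroup.mk'_surjective _)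
  have hle : (D N d).map q ≤ N.map q := Subgroup.map_mono (D_antitone N (Nat.zero_le d))
  have hsurj : Function.Surjective (q.subgroupMap N) := q.subgroupMap_surjective N
  have hnil' : Group.IsNilpotent (N.map q) := Group.nilpotent_of_surjective _ hsurj
  have hnil2 : Group.IsNilpotent ((D N d).map q) := by
    rw [Subgroup.isNilpotent_iff_lowerCentralSeries]
    exact Step_map_nil q _ (D_nil N ((Subgroup.isNilpotent_iff_lowerCentralSeries N).mp hnil) d)
  have hcard : (Nat.card ((D N d).map q) : k) ≠ 0 := by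
    intro h0
    apply hN
    obtain ⟨c, hc⟩ := Subgroup.card_dvd_of_surjective (q.subgroupMap N) hsurj
    obtain ⟨c', hc'⟩ := Subgroup.card_dvd_of_le hle
    rw [hc, hc', Nat.cast_mul, Nat.cast_mul, h0, zero_mul, zero_mul]
  have h1 := stepQ (k := k) ((D N d).map q) hnil2 hcard a f l s r
    (degrees_quot_le l hl1 hl)
    (fun e he => hf e (simpleDims_quotient (k := k) (kerDim k G l) he)) hfs hls
    ((Subgroup.map_mono hd).trans (kerDim_map_le (k := k) (kerDim k G l) a))
  rw [← FinB_map_D, Subgroup.map_eq_bot_iff, hq, QuotientGroup.ker_mk', Step_DD,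
    ← add_assoc] at h1
  exact h1

end Pool.Agent.W_bda8t_h78
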